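import Mathlib
import Pool.Agent.H767R2.GChar
import Pool.Agent.H767R2.Exist3
import Pool.Agent.H767R2.Defs2

set_option autoImplicit false

/-!
# `d^W_min(𝒫) ≤ |𝒫| - 1` for every essentially distinct family `𝒫`

For every essentially distinct family `𝒫` of at least two integer polynomials and every Weyl system, the
Host–Kra factor `𝒵_{|𝒫|-1}` is characteristic for the averages `A_N`.
-/

namespace Pool.Agent.Results.MP_467fc0_an.WeylDegreeBound

open Pool.Agent.H767R2 MeasureTheory Filter Topology Polynomial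
open scoped ENNReal

/-- In a relation `∑_{p ∈ 𝒫} Q_p(x + p(y)) = w(x)` all `Q_p` have degree at most `|𝒫| - 1`. -/
theorem relDeg_card (P : Finset ℤ[X]) (hP : EssentiallyDistinct P) (h2 : 2 ≤ P.card) (d : ℕ)
    (hd : P.card - 1 ≤ d) : RelDeg P (fun p => p) d := by
  classical
  intro Q w h i hi
  have hinj : Function.Injective (Int.castRingHom ℚ) := Int.cast_injective
  set p' : Option ℤ[X] → ℚ[X] := fun o => o.elim 0 (fun q => q.map (Int.castRingHom ℚ)) with hp'
  set Q' : Option ℤ[X] → ℚ[X] := fun o => o.elim (-w) Q with hQ'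
  have hmain := relation_degree (K := ℚ) (Finset.insertNone P) p' Q' (by
      intro a ha b hb hab
      rcases a with _ | a <;> rcases b with _ | b
      · exact absurd rfl hab
      · rw [Finset.mem_insertNone] at hb
        simp only [hp', Option.elim, zero_sub, Polynomial.natDegree_neg]
        rw [Polynomial.natDegree_map_eq_of_injective hinj]
        exact hP.1 b (hb b rfl)
      · rw [Finset.mem_insertNone] at ha
        simp only [hp', Option.elim, sub_zero]
        rw [Polynomial.natDegree_map_eq_of_injective hinj]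
        exact hP.1 a (ha a rfl)
      · rw [Finset.mem_insertNone] at ha hb
        simp only [hp', Option.elim]
        rw [← Polynomial.map_sub, Polynomial.natDegree_map_eq_of_injective hinj]
        exact hP.2 a (ha a rfl) b (hb b rfl) (fun h => hab (by rw [h]))) (by
      intro x y
      rw [Finset.sum_insertNone]
      simp only [hp', hQ', Option.elim, Polynomial.eval_zero, add_zero, Polynomial.eval_neg]
      rw [h x y]
      ring) (some i) (by rw [Finset.mem_insertNone]; rintro a ⟨⟩; exact hi)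
  simp only [hQ', Option.elim] at hmain
  by_cases h0 : Q i = 0
  · rw [h0, Polynomial.natDegree_zero]
    exact Nat.zero_le _
  · have h1 := hmain h0
    rw [Finset.card_insertNone] at h1
    omega

/-- **The bound `d^W_min(𝒫) ≤ |𝒫| - 1`.**  Let `𝒫` be an essentially distinct family of `ℓ ≥ 2` integer
polynomials.  Then `d^W_min(𝒫) ≤ ℓ - 1`.  In detail, for every Weyl system and every `d ≥ ℓ - 1`:
* the Host–Kra factor `𝒵_d` exists and is characteristic for the averages of `𝒫`;
* the averages `A_N` tend to `0` in `L²` whenever `|||f_p|||_{d+1} = 0` for some `p ∈ 𝒫`. -/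
theorem result (P : Finset ℤ[X]) (hP : EssentiallyDistinct P) (h2 : 2 ≤ P.card) :
    dWMin P ≤ ((P.card - 1 : ℕ) : ℕ∞) ∧
    ∀ d : ℕ, P.card - 1 ≤ d → ∀ W : WeylSystem,
      (∃ 𝒵 : MeasurableSpace (Fin W.D → UnitAddCircle), IsHKFactor 𝒵 (haarT W.D) W.T d) ∧
      (∀ 𝒵 : MeasurableSpace (Fin W.D → UnitAddCircle),
        IsHKFactor 𝒵 (haarT W.D) W.T d → IsCharacteristic 𝒵 (haarT W.D) W.T P) ∧
      ∀ f : ℤ[X] → (Fin W.D → UnitAddCircle) → ℂ, (∀ p ∈ P, MemLp (f p) ∞ (haarT W.D)) →
        (∃ p ∈ P, hk (haarT W.D) W.T d (f p) = 0) →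
        Tendsto (fun N : ℕ => eLpNorm (polyAvg W.T P f N) 2 (haarT W.D)) atTop (𝓝 0) := by
  classical
  have hchar : ∀ d : ℕ, P.card - 1 ≤ d → ∀ (W : WeylSystem)
      (𝒵 : MeasurableSpace (Fin W.D → UnitAddCircle)),
      IsHKFactor 𝒵 (haarT W.D) W.T d → IsCharacteristic 𝒵 (haarT W.D) W.T P := by
    intro d hd W 𝒵 h𝒵
    obtain ⟨k, rfl⟩ : ∃ k, d = k + 1 := ⟨d - 1, by omega⟩
    exact characteristic_of_relDeg P k (relDeg_card P hP h2 (k + 1) hd) W 𝒵 h𝒵
  refine ⟨?_, fun d hd W => ⟨W.exists_hkFactor d, hchar d hd W, ?_⟩⟩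
  · refine iInf₂_le (P.card - 1) fun W => ?_
    obtain ⟨𝒵, h𝒵⟩ := W.exists_hkFactor (P.card - 1)
    exact ⟨𝒵, h𝒵, hchar _ le_rfl W 𝒵 h𝒵⟩
  · rintro f hf ⟨p, hp, h0⟩
    obtain ⟨k, rfl⟩ : ∃ k, d = k + 1 := ⟨d - 1, by omega⟩
    exact seminorm_form_D W P (fun q => q) k (relDeg_card P hP h2 (k + 1) hd) f _
      (fun q hq => bd_of_memLp_top (hf q hq)) p hp h0

end Pool.Agent.Results.MP_467fc0_an.WeylDegreeBound
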